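import Pool.Agent.Y808.MZ.Gal

/-!
# Mazur's dimension conjecture fails for every larger set `S`

There are `F = ℚ(√5)`, a finite set `S` of places of `F`, a finite field `k` of characteristic 2 and a continuous
absolutely irreducible representation `ρbar : G_{F,S} → GL_3(k)` such that for **every** finite set `S'` of places
containing `S` the inflation of `ρbar` to `G_{F,S'}` is a counterexample to the dimension conjecture: `δ = 1`, the
universal deformation ring exists, and `dim R/2R ≥ 2` for every universal deformation ring `R`. In particular there are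
infinitely many counterexamples, and the failure is not caused by the choice of `S`: the difference between the dimension
and `δ` cannot be removed by allowing more ramification.

The starting result of this problem (`DimensionConjectureFails`) is the case `S' = S`. The new part is a comparison
theorem for arbitrary deformation rings (`Pool.Agent.Y808.MZD.surj`): if `π : G' → G` is a surjective quotient map of
topological groups, then the natural map from the universal deformation ring of `ρbar ∘ π` to the one of `ρbar` is
surjective; and the computation of the decomposition groups at the infinite places of `F_{S'}` and of their images in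
`G_{F,S}`, which shows that `δ` does not change.
-/

set_option autoImplicit false

namespace Pool.Agent.Results.MP_aa8fd2_nt.AllLargerS

open NumberField IsDedekindDomain

/-- `ρ'` is the inflation of the representation `ρ` of `G_{F,S}` to `G_{F,S'}`, i.e. the composition of `ρ` with the
restriction map `π : G_{F,S'} → G_{F,S}` -/
def IsInflation {F Ω : Type} [Field F] [NumberField F] [Field Ω] [Algebra F Ω]
    {S S' : Set (HeightOneSpectrum (𝓞 F))} {k : Type} [Field k] {n : ℕ}
    (ρ : MZ.GFS Ω S →* GL (Fin n) k) (ρ' : MZ.GFS Ω S' →* GL (Fin n) k) : Prop :=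
  ∃ π : MZ.GFS Ω S' →* MZ.GFS Ω S, Function.Surjective π ∧
    (∀ (g : MZ.GFS Ω S') (x : (MZ.FSmax S : IntermediateField F Ω))
      (y : (MZ.FSmax S' : IntermediateField F Ω)), (x : Ω) = y → (π g x : Ω) = g y) ∧
    ρ' = ρ.comp π

/-- for all finite `S' ⊇ S` the inflation of `ρ` to `G_{F,S'}` is a counterexample to the dimension conjecture -/
def FailsForAllLarger {F Ω : Type} [Field F] [NumberField F] [Field Ω] [Algebra F Ω]
    {S : Set (HeightOneSpectrum (𝓞 F))} {k : Type} [Field k] [CharP k 2]
    (ρ : MZ.GFS Ω S →* GL (Fin 3) k) : Prop :=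
  ∀ S' : Set (HeightOneSpectrum (𝓞 F)), S'.Finite → S ⊆ S' →
    ∃ (ρ' : MZ.GFS Ω S' →* GL (Fin 3) k)
      (w' : InfinitePlace F → InfinitePlace (MZ.FSmax S' : IntermediateField F Ω)),
      IsInflation ρ ρ' ∧ MZ.IsCounter F Ω S' 2 k 3 ρ' w'

/-- **Counterexamples for all `S' ⊇ S`.** `IsCounter` means: the data are as in the problem, `δ = 1`, a universal
deformation ring exists, and every universal deformation ring `R` has `dim R/2R ≥ 2`. -/
theorem result :
    ∃ (F Ω : Type) (_ : Field F) (_ : NumberField F) (_ : Field Ω) (_ : Algebra F Ω)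
      (_ : IsAlgClosure F Ω) (S : Set (HeightOneSpectrum (𝓞 F)))
      (k : Type) (_ : Field k) (_ : Finite k) (_ : CharP k 2)
      (ρ : MZ.GFS Ω S →* GL (Fin 3) k),
      (∃ s : F, s ^ 2 = 5 ∧ IntermediateField.adjoin ℚ {s} = ⊤) ∧ S.Finite ∧
      FailsForAllLarger ρ := by
  obtain ⟨F, Ω, iF, iN, iΩ, iA, iC, S, k, ik, iFin, iP, ρbar, w, hs, hD, hδ, hE, hR⟩ := MZ.strong
  refine ⟨F, Ω, iF, iN, iΩ, iA, iC, S, k, ik, iFin, iP, ρbar, hs, hD.2.2.1, fun S' hS' h => ?_⟩
  obtain ⟨π, w', h1, h2, h3⟩ := Pool.Agent.Y808.MZD.enlarge h hS' ρbar w ⟨hD, hδ, hE, hR⟩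
  exact ⟨ρbar.comp π, w', ⟨π, h1, h2, rfl⟩, h3⟩

end Pool.Agent.Results.MP_aa8fd2_nt.AllLargerS
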